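import Mathlib

open Topology

/-!
# A counterexample to the noncommutative Borsuk-Ulam-type conjecture (type 1)

The counterexample is classical: `G = ℤ_p` and `A = C(X)`, where `X` is a countable product of
three-spheres, and `ℤ_p` acts on the `k`-th factor through scalar multiplication by the
`p ^ (2 ^ k)`-th roots of unity.

For `N = p ^ (2 ^ k)` the map `(z, w) ↦ (z ^ N - (conj w) ^ (N ^ 2 - N), z * w ^ (N - 1))` from the
`(k + 1)`-st to the `k`-th sphere (after normalization) is equivariant, and it misses a direction,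
hence it is homotopic to a constant map.  The product of these maps is a `ℤ_p`-equivariant map
`X → X` homotopic to a constant map, i.e. a `ℤ_p`-equivariant map from the join `X * ℤ_p` to `X`.

All C*-algebras in question are commutative, and the tensor product `C(X) ⊗ C(G)` is written
as `C(X × G)`.
-/

namespace Pool.Agent.Results.MP_003b3e_an.PadicCounterexample

/-! ### Definitions -/

section Definitions

variable (G X : Type) [TopologicalSpace G] [AddCommGroup G]
  [TopologicalSpace X] [AddAction G X] [ContinuousVAdd G X]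

/-- The coaction `δ : C(X) → C(X) ⊗ C(G) = C(X × G)`, `δ a (x, g) = a (g • x)`, of the
(abelian) compact group `G` on the C*-algebra `C(X)` which is dual to the action of `G` on `X`. -/
noncomputable def coaction (a : C(X, ℂ)) : C(X × G, ℂ) := ⟨fun q => a (q.2 +ᵥ q.1), by fun_prop⟩

/-- The Ellwood condition: the closed linear span of all `(a ⊗ 1) δ(b)` is `C(X) ⊗ C(G)`, i.e.
every `F` in `C(X × G)` is a uniform limit of finite sums of functions `(a ⊗ 1) δ(b)`. -/
def IsFreeAction : Prop :=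
  ∀ (F : C(X × G, ℂ)) (ε : ℝ), 0 < ε → ∃ (n : ℕ) (a b : Fin n → C(X, ℂ)), ∀ (x : X) (g : G),
    ‖F (x, g) - ∑ i, a i x * coaction G X (b i) (x, g)‖ < ε

/-- The element `f` of `C([0,1], C(X) ⊗ C(G)) = C([0,1] × X × G)` belongs to the equivariant
noncommutative join `C(X) ⊛ C(G)`: one has `f(0) ∈ δ(C(X))` and `f(1) ∈ ℂ ⊗ C(G)`. -/
def InJoin (f : C(unitInterval × X × G, ℂ)) : Prop :=
  (∃ a : C(X, ℂ), ∀ (x : X) (g : G), f (0, x, g) = coaction G X a (x, g)) ∧
    ∃ b : C(G, ℂ), ∀ (x : X) (g : G), f (1, x, g) = b g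

/-- The function `x ↦ δ(a)(x, h) = a (h • x)`: the coaction evaluated at the point `h` in the
tensor factor `C(G)`. -/
noncomputable def slice (h : G) (a : C(X, ℂ)) : C(X, ℂ) := ⟨fun x => coaction G X a (x, h), by fun_prop⟩

/-- The unital `*`-homomorphisms from `C(X)` to `C([0,1], C(X) ⊗ C(G)) = C([0,1] × X × G)`. -/
abbrev Hom : Type := C(X, ℂ) →⋆ₐ[ℂ] C(unitInterval × X × G, ℂ)

/-- Equivariance of a homomorphism `φ` from `C(X)` to the join, i.e. `(φ ⊗ id) ∘ δ = δ' ∘ φ`, where
`δ'` is induced by the coproduct `b ↦ ((g, h) ↦ b (g + h))` of `C(G)`; both sides are evaluated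
at all points `h` of the last tensor factor `C(G)`. -/
def IsEquivariant (φ : Hom G X) : Prop :=
  ∀ (a : C(X, ℂ)) (h : G) (t : unitInterval) (x : X) (g : G),
    φ (slice G X h a) (t, x, g) = φ a (t, x, g + h)

/-- There is a `G`-equivariant unital `*`-homomorphism `C(X) → C(X) ⊛ C(G)`. -/
def HasMapToJoin : Prop :=
  ∃ φ : Hom G X, (∀ a : C(X, ℂ), InJoin G X (φ a)) ∧ IsEquivariant G X φ

end Definitions

/-! ### The map on the three-sphere -/

section Sphere

open ComplexConjugate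

/-- the polynomial map -/
noncomputable def phi (n : ℕ) (z : ℂ × ℂ) : ℂ × ℂ :=
  (z.1 ^ (n + 1) - (conj z.2) ^ ((n + 1) * n), z.1 * z.2 ^ n)

lemma circle_conj_pow {ζ : Circle} {n : ℕ} (h : ζ ^ ((n + 1) ^ 2) = 1) :
    (conj (ζ : ℂ)) ^ ((n + 1) * n) = (ζ : ℂ) ^ (n + 1) := by
  have h1 : (ζ : ℂ) ^ ((n + 1) ^ 2) = 1 := by
    rw [← Circle.coe_pow, h, Circle.coe_one]
  have h2 : conj (ζ : ℂ) * (ζ : ℂ) = 1 := by
    rw [← Circle.coe_inv_eq_conj, ← Circle.coe_mul]; simp
  calc (conj (ζ : ℂ)) ^ ((n + 1) * n)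
      = (conj (ζ : ℂ)) ^ ((n + 1) * n) * (ζ : ℂ) ^ ((n + 1) ^ 2) := by rw [h1, mul_one]
    _ = (conj (ζ : ℂ) * (ζ : ℂ)) ^ ((n + 1) * n) * (ζ : ℂ) ^ (n + 1) := by
        rw [mul_pow, mul_assoc, ← pow_add]
        congr 2; ring
    _ = (ζ : ℂ) ^ (n + 1) := by rw [h2, one_pow, one_mul]

lemma phi_smul {ζ : Circle} {n : ℕ} (h : ζ ^ ((n + 1) ^ 2) = 1) (z : ℂ × ℂ) :
    phi n ((ζ : ℂ) • z) = ((ζ ^ (n + 1) : Circle) : ℂ) • phi n z := by
  unfold phi
  ext
  · simp only [Prod.smul_fst, Prod.smul_snd, smul_eq_mul, map_mul, mul_pow]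
    rw [circle_conj_pow h, Circle.coe_pow]
    ring
  · simp only [Prod.smul_fst, Prod.smul_snd, smul_eq_mul, mul_pow, Circle.coe_pow]
    ring

/-- the missing direction -/
noncomputable def kap (n : ℕ) : ℂ := -Complex.exp (Real.pi * Complex.I / (n + 1))

lemma kap_pow (n : ℕ) : (-kap n) ^ (n + 1) = -1 := by
  unfold kap
  rw [neg_neg, ← Complex.exp_nat_mul]
  have : ((n + 1 : ℕ) : ℂ) * (Real.pi * Complex.I / (n + 1)) = Real.pi * Complex.I := by
    have : (n : ℂ) + 1 ≠ 0 := Nat.cast_add_one_ne_zero n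
    push_cast
    field_simp
  rw [this, Complex.exp_pi_mul_I]

lemma kap_ne (n : ℕ) : kap n ≠ 0 := by
  unfold kap
  exact neg_ne_zero.2 (Complex.exp_ne_zero _)

/-- the homotopy before normalization -/
noncomputable def hom (n : ℕ) (t : ℝ) (z : ℂ × ℂ) : ℂ × ℂ :=
  ((1 - t : ℝ) : ℂ) • phi n z + ((t : ℂ) * kap n) • ((0 : ℂ), (1 : ℂ))

lemma hom_ne {n : ℕ} (hn : 1 ≤ n) {t : ℝ} (ht0 : 0 ≤ t) (ht1 : t ≤ 1) {z : ℂ × ℂ} (hz : z ≠ 0) :
    hom n t z ≠ 0 := by
  intro h
  have h1 := congrArg Prod.fst h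
  have h2 := congrArg Prod.snd h
  simp only [hom, phi, Prod.fst_add, Prod.smul_fst, smul_eq_mul, mul_zero, add_zero, Prod.fst_zero,
    Prod.snd_add, Prod.smul_snd, mul_one, Prod.snd_zero] at h1 h2
  rcases ht1.eq_or_lt with rfl | ht
  · simp at h2
    exact kap_ne n h2
  · have hne : ((1 - t : ℝ) : ℂ) ≠ 0 := by
      rw [Complex.ofReal_ne_zero]; linarith
    have h3 : z.1 ^ (n + 1) = (conj z.2) ^ ((n + 1) * n) := by
      rcases mul_eq_zero.1 h1 with h | h
      · exact absurd h hne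
      · exact sub_eq_zero.1 h
    have h4 : z.1 * z.2 ^ n = ((t / (1 - t) : ℝ) : ℂ) * (-kap n) := by
      have h5 : ((1 - t : ℝ) : ℂ) * (z.1 * z.2 ^ n) = (t : ℂ) * (-kap n) := by
        linear_combination h2
      have h6 : ((t / (1 - t) : ℝ) : ℂ) = (t : ℂ) / ((1 - t : ℝ) : ℂ) := by push_cast; ring
      rw [h6]
      field_simp
      linear_combination h5
    have h5 : (z.1 * z.2 ^ n) ^ (n + 1) = ((Complex.normSq z.2 ^ ((n + 1) * n) : ℝ) : ℂ) := by
      rw [mul_pow, h3, ← pow_mul, mul_comm n (n + 1), ← mul_pow, Complex.ofReal_pow,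
        Complex.normSq_eq_conj_mul_self]
    rw [h4, mul_pow, kap_pow, ← Complex.ofReal_pow] at h5
    have h6 : -((t / (1 - t)) ^ (n + 1)) = Complex.normSq z.2 ^ ((n + 1) * n) := by
      have : ((-((t / (1 - t)) ^ (n + 1)) : ℝ) : ℂ) =
        ((Complex.normSq z.2 ^ ((n + 1) * n) : ℝ) : ℂ) := by
        rw [← h5]; push_cast; ring
      exact_mod_cast this
    have h7 : 0 ≤ (t / (1 - t)) ^ (n + 1) := pow_nonneg (div_nonneg ht0 (by linarith)) _
    have h8 : 0 ≤ Complex.normSq z.2 ^ ((n + 1) * n) := pow_nonneg (Complex.normSq_nonneg _) _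
    have h9 : Complex.normSq z.2 ^ ((n + 1) * n) = 0 := by linarith
    have hnn : (n + 1) * n ≠ 0 := by positivity
    have h10 : z.2 = 0 := Complex.normSq_eq_zero.1 ((pow_eq_zero_iff hnn).1 h9)
    have h11 : z.1 = 0 := by
      rw [h10, map_zero, zero_pow hnn] at h3
      exact (pow_eq_zero_iff (by omega)).1 h3
    exact hz (Prod.ext h11 h10)

lemma continuous_hom (n : ℕ) : Continuous fun q : ℝ × (ℂ × ℂ) => hom n q.1 q.2 := by
  unfold hom phi
  fun_prop

end Sphere

/-! ### The space -/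

/-- the three-sphere, as the unit sphere of `ℂ × ℂ` with the maximum norm -/
abbrev Sph : Type := Metric.sphere (0 : ℂ × ℂ) 1

/-- the countable product of three-spheres -/
abbrev Spc : Type := ℕ → Sph

lemma sph_ne (z : Sph) : z.1 ≠ 0 := by
  intro h
  have := z.2
  rw [h, mem_sphere_zero_iff_norm, norm_zero] at this
  exact zero_ne_one this

/-- scalar multiplication on the sphere -/
noncomputable def rot (ζ : Circle) (z : Sph) : Sph :=
  ⟨(ζ : ℂ) • z.1, by
    rw [mem_sphere_zero_iff_norm, norm_smul, Circle.norm_coe, one_mul]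
    exact mem_sphere_zero_iff_norm.1 z.2⟩

/-- normalization -/
noncomputable def nrm (v : ℂ × ℂ) (hv : v ≠ 0) : Sph :=
  ⟨((‖v‖⁻¹ : ℝ) : ℂ) • v, by
    rw [mem_sphere_zero_iff_norm, norm_smul, Complex.norm_real, Real.norm_eq_abs,
      abs_of_nonneg (by positivity), inv_mul_cancel₀ (norm_ne_zero_iff.2 hv)]⟩

/-- The data used in the construction: a compatible tower of characters. -/
structure Tower (G : Type) [AddCommGroup G] [TopologicalSpace G] where
  n : ℕ → ℕ
  chi : ℕ → G → Circle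
  one_le : ∀ k, 1 ≤ n k
  cont : ∀ k, Continuous (chi k)
  map_zero : ∀ k, chi k 0 = 1
  map_add : ∀ k a b, chi k (a + b) = chi k a * chi k b
  pow_succ : ∀ k a, chi (k + 1) a ^ (n k + 1) = chi k a
  pow_sq : ∀ k a, chi (k + 1) a ^ ((n k + 1) ^ 2) = 1
  inj : ∀ a, (∀ k, chi k a = 1) → a = 0

namespace Tower

variable {G : Type} [AddCommGroup G] [TopologicalSpace G] (T : Tower G)

/-- the action of `G` on the product of spheres -/
@[reducible] noncomputable def act : AddAction G Spc where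
  vadd a x := fun k => rot (T.chi k a) (x k)
  zero_vadd x := by
    funext k
    refine Subtype.ext ?_
    change ((T.chi k 0 : Circle) : ℂ) • (x k).1 = (x k).1
    rw [T.map_zero, Circle.coe_one, one_smul]
  add_vadd a b x := by
    funext k
    refine Subtype.ext ?_
    change ((T.chi k (a + b) : Circle) : ℂ) • (x k).1 =
      ((T.chi k a : Circle) : ℂ) • (((T.chi k b : Circle) : ℂ) • (x k).1)
    rw [T.map_add, Circle.coe_mul, mul_smul]

lemma act_apply (a : G) (x : Spc) (k : ℕ) :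
    letI := T.act
    ((a +ᵥ x) k).1 = ((T.chi k a : Circle) : ℂ) • (x k).1 := rfl

lemma continuousVAdd : letI := T.act; ContinuousVAdd G Spc := by
  let _ := T.act
  refine ⟨?_⟩
  refine continuous_pi fun k => ?_
  refine Continuous.subtype_mk ?_ _
  have h1 : Continuous fun p : G × Spc => ((T.chi k p.1 : Circle) : ℂ) :=
    continuous_induced_dom.comp ((T.cont k).comp continuous_fst)
  have h2 : Continuous fun p : G × Spc => (p.2 k).1 :=
    continuous_subtype_val.comp ((continuous_apply k).comp continuous_snd)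
  exact h1.smul h2

lemma free (a : G) (x : Spc) (h : letI := T.act; a +ᵥ x = x) : a = 0 := by
  refine T.inj a fun k => ?_
  have h1 : ((T.chi k a : Circle) : ℂ) • (x k).1 = (x k).1 :=
    congrArg Subtype.val (congrFun h k)
  have h2 : (((T.chi k a : Circle) : ℂ) - 1) • (x k).1 = 0 := by
    rw [sub_smul, one_smul, h1, sub_self]
  rcases smul_eq_zero.1 h2 with h3 | h3
  · rw [sub_eq_zero] at h3
    exact Circle.ext (by rw [h3, Circle.coe_one])
  · exact absurd h3 (sph_ne _)

/-- the homotopy from an equivariant map to a constant map -/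
noncomputable def Psi (t : unitInterval) (x : Spc) : Spc := fun k =>
  nrm (hom (T.n k) t (x (k + 1)).1) (hom_ne (T.one_le k) t.2.1 t.2.2 (sph_ne _))

lemma continuous_Psi : Continuous fun q : unitInterval × Spc => T.Psi q.1 q.2 := by
  refine continuous_pi fun k => ?_
  refine Continuous.subtype_mk ?_ _
  have h1 : Continuous fun q : unitInterval × Spc => hom (T.n k) q.1 (q.2 (k + 1)).1 := by
    have h2 : Continuous fun q : unitInterval × Spc => ((q.1 : ℝ), (q.2 (k + 1)).1) :=
      (continuous_subtype_val.comp continuous_fst).prodMk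
        (continuous_subtype_val.comp ((continuous_apply (k + 1)).comp continuous_snd))
    exact (continuous_hom (T.n k)).comp h2
  have h3 : Continuous fun q : unitInterval × Spc =>
      ((‖hom (T.n k) q.1 (q.2 (k + 1)).1‖⁻¹ : ℝ) : ℂ) := by
    refine Complex.continuous_ofReal.comp (Continuous.inv₀ h1.norm fun q => ?_)
    exact norm_ne_zero_iff.2 (hom_ne (T.one_le k) q.1.2.1 q.1.2.2 (sph_ne _))
  exact h3.smul h1

lemma Psi_zero (a : G) (x : Spc) : letI := T.act; T.Psi 0 (a +ᵥ x) = a +ᵥ T.Psi 0 x := by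
  let _ := T.act
  funext k
  refine Subtype.ext ?_
  change ((‖hom (T.n k) 0 (((T.chi (k + 1) a : Circle) : ℂ) • (x (k + 1)).1)‖⁻¹ : ℝ) : ℂ) •
      hom (T.n k) 0 (((T.chi (k + 1) a : Circle) : ℂ) • (x (k + 1)).1) =
    ((T.chi k a : Circle) : ℂ) • (((‖hom (T.n k) 0 (x (k + 1)).1‖⁻¹ : ℝ) : ℂ) •
      hom (T.n k) 0 (x (k + 1)).1)
  have h : hom (T.n k) 0 (((T.chi (k + 1) a : Circle) : ℂ) • (x (k + 1)).1) =
      ((T.chi k a : Circle) : ℂ) • hom (T.n k) 0 (x (k + 1)).1 := by
    unfold hom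
    rw [phi_smul (T.pow_sq k a), T.pow_succ]
    simp
  rw [h, norm_smul, Circle.norm_coe, one_mul, smul_comm]

lemma Psi_one (x y : Spc) : T.Psi 1 x = T.Psi 1 y := by
  funext k
  refine Subtype.ext ?_
  change ((‖hom (T.n k) 1 (x (k + 1)).1‖⁻¹ : ℝ) : ℂ) • hom (T.n k) 1 (x (k + 1)).1 =
    ((‖hom (T.n k) 1 (y (k + 1)).1‖⁻¹ : ℝ) : ℂ) • hom (T.n k) 1 (y (k + 1)).1
  have h : hom (T.n k) 1 (x (k + 1)).1 = hom (T.n k) 1 (y (k + 1)).1 := by
    unfold hom; simp
  rw [h]

end Tower

/-! ### The Ellwood condition from freeness -/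

section Ellwood

variable {G X : Type} [TopologicalSpace G] [AddCommGroup G]
  [TopologicalSpace X] [AddAction G X] [ContinuousVAdd G X] [CompactSpace G] [CompactSpace X]
  [T2Space X]

omit [TopologicalSpace G] [AddCommGroup G] [AddAction G X]
  [ContinuousVAdd G X] [CompactSpace G] in
lemma sep {x y : X} (h : x ≠ y) : ∃ f : C(X, ℂ), f x ≠ f y := by
  obtain ⟨f, hf0, hf1, -⟩ := exists_continuous_zero_one_of_isClosed (isClosed_singleton (x := x))
    (isClosed_singleton (x := y)) (Set.disjoint_singleton.2 h)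
  refine ⟨⟨fun z => (f z : ℂ), by fun_prop⟩, ?_⟩
  have h0 : f x = 0 := hf0 rfl
  have h1 : f y = 1 := hf1 rfl
  simp [h0, h1]

lemma isFreeAction_of_free (hfree : ∀ (g : G) (x : X), g +ᵥ x = x → g = 0) :
    IsFreeAction G X := by
  set s : Set C(X × G, ℂ) := {f : C(X × G, ℂ) | ∃ a b : C(X, ℂ),
    f = a.comp ContinuousMap.fst * coaction G X b} with hs
  have hone : (1 : C(X × G, ℂ)) ∈ s := ⟨1, 1, by ext q; simp [coaction]⟩
  have hmul : ∀ f ∈ s, ∀ f' ∈ s, f * f' ∈ s := by
    rintro f ⟨a, b, rfl⟩ f' ⟨a', b', rfl⟩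
    refine ⟨a * a', b * b', ?_⟩
    ext q
    simp only [coaction, ContinuousMap.mul_apply, ContinuousMap.comp_apply,
      ContinuousMap.coe_mk]
    ring
  have hstar : ∀ f ∈ s, star f ∈ s := by
    rintro f ⟨a, b, rfl⟩
    refine ⟨star a, star b, ?_⟩
    ext q
    simp [coaction]
  let M : Submonoid C(X × G, ℂ) :=
    { carrier := s, one_mem' := hone, mul_mem' := fun {f f'} hf hf' => hmul f hf f' hf' }
  have hM : Submonoid.closure s = M := Submonoid.closure_eq M
  have hadj : (Algebra.adjoin ℂ s).toSubmodule = Submodule.span ℂ s := by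
    rw [Algebra.adjoin_eq_span, hM]; rfl
  let B : StarSubalgebra ℂ C(X × G, ℂ) :=
    { Algebra.adjoin ℂ s with
      star_mem' := by
        intro f hf
        refine Algebra.adjoin_induction (p := fun f _ => star f ∈ Algebra.adjoin ℂ s)
          ?_ ?_ ?_ ?_ hf
        · exact fun f hf => Algebra.subset_adjoin (hstar f hf)
        · intro c
          rw [← algebraMap_star_comm]
          exact Subalgebra.algebraMap_mem _ _
        · intro f g _ _ hf hg
          rw [star_add]; exact Subalgebra.add_mem _ hf hg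
        · intro f g _ _ hf hg
          rw [star_mul']; exact Subalgebra.mul_mem _ hf hg }
  have hsep : B.SeparatesPoints := by
    rintro ⟨x, g⟩ ⟨y, h⟩ hne
    by_cases hxy : x = y
    · subst hxy
      have hgh : g +ᵥ x ≠ h +ᵥ x := by
        intro e
        apply hne
        have : (-h + g) +ᵥ x = x := by
          rw [add_vadd, e, ← add_vadd, neg_add_cancel, zero_vadd]
        have := hfree _ _ this
        have : g = h := by
          have h2 : -h + g = 0 := this
          rw [neg_add_eq_zero] at h2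
          exact h2.symm
        rw [this]
      obtain ⟨f, hf⟩ := sep hgh
      refine ⟨coaction G X f, ⟨coaction G X f, ?_, rfl⟩, hf⟩
      exact Algebra.subset_adjoin ⟨1, f, by ext q; simp⟩
    · obtain ⟨f, hf⟩ := sep hxy
      refine ⟨f.comp ContinuousMap.fst, ⟨f.comp ContinuousMap.fst, ?_, rfl⟩, hf⟩
      exact Algebra.subset_adjoin ⟨f, 1, by ext q; simp [coaction]⟩
  have htop := ContinuousMap.starSubalgebra_topologicalClosure_eq_top_of_separatesPoints B hsep
  have h1 : closure (B : Set C(X × G, ℂ)) = Set.univ := by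
    rw [← StarSubalgebra.topologicalClosure_coe, htop]; rfl
  intro F ε hε
  have hF : F ∈ closure (B : Set C(X × G, ℂ)) := by rw [h1]; exact Set.mem_univ _
  obtain ⟨F', hF', hd⟩ := Metric.mem_closure_iff.1 hF ε hε
  have hF'' : F' ∈ Submodule.span ℂ s := by rw [← hadj]; exact hF'
  obtain ⟨n, c, v, hv⟩ := Submodule.mem_span_set'.1 hF''
  choose a b hab using fun i => (v i).2
  refine ⟨n, fun i => c i • a i, b, fun x g => ?_⟩
  have h2 : F' (x, g) = ∑ i, (c i • a i) x * coaction G X (b i) (x, g) := by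
    rw [← hv, ContinuousMap.coe_sum, Finset.sum_apply]
    refine Finset.sum_congr rfl fun i _ => ?_
    rw [ContinuousMap.smul_apply, hab i]
    simp [mul_assoc]
  rw [← h2, ← Complex.dist_eq]
  exact lt_of_le_of_lt (ContinuousMap.dist_apply_le_dist _) hd

end Ellwood

/-! ### The homomorphism from the homotopy -/

section Hom

variable {G X : Type} [TopologicalSpace G] [AddCommGroup G]
  [TopologicalSpace X] [AddAction G X] [ContinuousVAdd G X]

/-- the continuous map `(t, (x, g)) ↦ g • Ψ_t(x)` -/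
noncomputable def big (Ψ : C(unitInterval × X, X)) : C(unitInterval × X × G, X) :=
  ⟨fun q => q.2.2 +ᵥ Ψ (q.1, q.2.1), by fun_prop⟩

lemma exists_hom (x₀ : X) (Ψ : C(unitInterval × X, X))
    (h0 : ∀ (g : G) (x : X), Ψ (0, g +ᵥ x) = g +ᵥ Ψ (0, x))
    (h1 : ∀ x y : X, Ψ (1, x) = Ψ (1, y)) :
    HasMapToJoin G X := by
  refine ⟨ContinuousMap.compStarAlgHom' ℂ ℂ (big Ψ), fun a => ⟨⟨a.comp ⟨fun x => Ψ (0, x),
    by fun_prop⟩, fun x g => ?_⟩, ⟨fun g => a (g +ᵥ Ψ (1, x₀)), by fun_prop⟩, fun x g => ?_⟩, ?_⟩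
  · change a (g +ᵥ Ψ (0, x)) = a (Ψ (0, g +ᵥ x))
    rw [h0]
  · change a (g +ᵥ Ψ (1, x)) = a (g +ᵥ Ψ (1, x₀))
    rw [h1 x x₀]
  · intro a h t x g
    change a (h +ᵥ (g +ᵥ Ψ (t, x))) = a ((g + h) +ᵥ Ψ (t, x))
    rw [← add_vadd, add_comm]

end Hom

/-! ### The tower of characters of the `p`-adic integers -/

section Padic

variable (p : ℕ) [hp : Fact p.Prime]

lemma continuous_toZModPow (n : ℕ) (f : ZMod (p ^ n) → Circle) :
    Continuous fun a : ℤ_[p] => f (PadicInt.toZModPow n a) := by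
  refine IsLocallyConstant.continuous ?_
  rw [IsLocallyConstant.iff_exists_open]
  intro x
  have hp0 : (0 : ℝ) < p := by exact_mod_cast hp.out.pos
  refine ⟨Metric.ball x ((p : ℝ) ^ (-(n : ℤ))), Metric.isOpen_ball,
    Metric.mem_ball_self (by positivity), ?_⟩
  intro y hy
  have h1 : ‖y - x‖ ≤ (p : ℝ) ^ (-(n : ℤ)) := by
    rw [← dist_eq_norm]; exact (Metric.mem_ball.1 hy).le
  rw [PadicInt.norm_le_pow_iff_mem_span_pow, ← PadicInt.ker_toZModPow, RingHom.mem_ker, map_sub,
    sub_eq_zero] at h1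
  simp only [h1]

/-- the character `a ↦ exp(2πi a / p^(2^k))` of the `p`-adic integers -/
noncomputable def chi (k : ℕ) (a : ℤ_[p]) : Circle :=
  ZMod.toCircle (PadicInt.toZModPow (2 ^ k) a)

lemma chi_spec (m n : ℕ) (a : ℤ_[p]) :
    (ZMod.toCircle (PadicInt.toZModPow (m + n) a)) ^ (p ^ n) =
      ZMod.toCircle (PadicInt.toZModPow m a) := by
  have hp0 : (p : ℂ) ≠ 0 := by exact_mod_cast hp.out.ne_zero
  obtain ⟨j, hj⟩ := ZMod.natCast_zmod_surjective (PadicInt.toZModPow (m + n) a)
  have h1 : PadicInt.toZModPow m a = (j : ZMod (p ^ m)) := by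
    rw [← PadicInt.cast_toZModPow m (m + n) (by omega) a, ← hj]
    exact ZMod.cast_natCast (pow_dvd_pow p (by omega)) j
  rw [h1, ← hj]
  refine Circle.ext ?_
  rw [Circle.coe_pow, ZMod.toCircle_natCast, ZMod.toCircle_natCast, ← Complex.exp_nat_mul]
  congr 1
  push_cast
  rw [pow_add]
  field_simp

/-- the tower for the `p`-adic integers -/
noncomputable def padicTower : Tower ℤ_[p] where
  n k := p ^ 2 ^ k - 1
  chi k := chi p k
  one_le k := by
    have h1 : 2 ≤ p := hp.out.two_le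
    have h2 : p ≤ p ^ 2 ^ k := Nat.le_self_pow (by positivity) p
    omega
  cont k := continuous_toZModPow p _ _
  map_zero k := by
    unfold chi; rw [map_zero, AddChar.map_zero_eq_one]
  map_add k a b := by
    unfold chi; rw [map_add, AddChar.map_add_eq_mul]
  pow_succ k a := by
    have h1 : 0 < p ^ 2 ^ k := by have := hp.out.pos; positivity
    rw [Nat.sub_add_cancel h1]
    have := chi_spec p (2 ^ k) (2 ^ k) a
    rw [← two_mul, ← Nat.pow_succ'] at this
    exact this
  pow_sq k a := by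
    have h1 : 0 < p ^ 2 ^ k := by have := hp.out.pos; positivity
    have h2 : (p ^ 2 ^ k) ^ 2 = p ^ 2 ^ (k + 1) := by
      rw [← pow_mul, ← Nat.pow_succ]
    rw [Nat.sub_add_cancel h1, h2]
    unfold chi
    rw [← AddChar.map_nsmul_eq_pow, nsmul_eq_mul, ZMod.natCast_self, zero_mul,
      AddChar.map_zero_eq_one]
  inj a h := by
    rw [← PadicInt.ext_of_toZModPow]
    intro n
    have h1 : PadicInt.toZModPow (2 ^ n) a = 0 := by
      apply ZMod.injective_toCircle
      rw [AddChar.map_zero_eq_one]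
      exact h n
    have h2 : n ≤ 2 ^ n := Nat.lt_two_pow_self.le
    rw [← PadicInt.cast_toZModPow n (2 ^ n) h2 a, h1, map_zero, ZMod.cast_zero]

end Padic

/-- For every prime `p`, the compact group `ℤ_p` of `p`-adic integers acts freely on a nonempty
compact metrizable space `X` such that there is a `ℤ_p`-equivariant unital `*`-homomorphism from
`C(X)` to the equivariant noncommutative join of `C(X)` and `C(ℤ_p)`. -/
theorem result (p : ℕ) [Fact p.Prime] :
    ∃ (X : Type) (_ : TopologicalSpace X) (_ : CompactSpace X)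
      (_ : TopologicalSpace.MetrizableSpace X) (_ : Nonempty X)
      (_ : AddAction ℤ_[p] X) (_ : ContinuousVAdd ℤ_[p] X),
      (∀ (g : ℤ_[p]) (x : X), g +ᵥ x = x → g = 0) ∧ IsFreeAction ℤ_[p] X ∧
        HasMapToJoin ℤ_[p] X := by
  let T := padicTower p
  let _ := T.act
  have hc := T.continuousVAdd
  have hne : Nonempty Spc := ⟨fun _ => ⟨(1, 0), by simp [Prod.norm_def]⟩⟩
  refine ⟨Spc, inferInstance, inferInstance, inferInstance, hne, inferInstance, hc,
    fun g x h => T.free g x h, isFreeAction_of_free fun g x h => T.free g x h, ?_⟩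
  obtain ⟨x₀⟩ := hne
  exact exists_hom x₀ ⟨fun q => T.Psi q.1 q.2, T.continuous_Psi⟩ (fun g x => T.Psi_zero g x)
    (fun x y => T.Psi_one x y)

end Pool.Agent.Results.MP_003b3e_an.PadicCounterexample
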